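import Pool.Agent.ASE.Stmts3

/-!
# Squad ASE, row MPB (helper9): images of subgroups
-/

namespace Pool.Agent.PP.SE.H9

open Pool.Agent.PP.SE

theorem mem_mp {V₀ : Type} [CommGroup V₀] (σ : MulAut V₀) (W : Subgroup V₀) (v : V₀) :
    v ∈ mp σ W ↔ σ⁻¹ v ∈ W := by
  unfold mp
  rw [Subgroup.mem_map]
  constructor
  · rintro ⟨x, hx, rfl⟩
    have : σ⁻¹ (σ x) = x := MulAut.inv_apply_self V₀ σ x
    show σ⁻¹ (σ x) ∈ W
    rwa [this]
  · intro h
    exact ⟨σ⁻¹ v, h, MulAut.apply_inv_self V₀ σ v⟩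

theorem mpb : MpbStmt := by
  intro V₀ _ _ σ τ W W'
  have h1 : mp 1 W = W := by
    ext v
    rw [mem_mp]
    simp
  have h2 : ∀ (σ τ : MulAut V₀) (W : Subgroup V₀), mp (σ * τ) W = mp σ (mp τ W) := by
    intro σ τ W
    ext v
    rw [mem_mp, mem_mp, mem_mp, mul_inv_rev, MulAut.mul_apply]
  refine ⟨h1, h2 σ τ W, ?_, fun v => mem_mp σ W v, fun v => ?_, fun v => ?_, ?_, ?_, ?_, ?_, ?_⟩
  · exact Nat.card_congr (Subgroup.equivMapOfInjective W _ (σ : V₀ ≃* V₀).injective).symm.toEquiv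
  · rw [mem_mp, MulAut.inv_apply_self]
  · exact MonoidHom.map_zpowers _ v
  · exact Subgroup.map_sup _ _ _
  · exact Subgroup.map_top_of_surjective _ (σ : V₀ ≃* V₀).surjective
  · exact Subgroup.map_bot _
  · constructor
    · rintro rfl
      rw [← h2, inv_mul_cancel]
      ext v
      rw [mem_mp]
      simp
    · rintro rfl
      rw [← h2, mul_inv_cancel]
      ext v
      rw [mem_mp]
      simp
  · intro h
    exact Subgroup.map_mono h

end Pool.Agent.PP.SE.H9
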